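import Mathlib

/-!
# MP_3240be_co, row TW1: the arrow of the TW systems (helper39, finding 4733 (1))

The vertices of `Gamma_M(R)` are the pairs `⟨v, f⟩`, `v` a vertex of `R` (the role) and
`f : {u // u ≠ v} → Fin M`; the body of `a : W → Fin M` is the copy `v ↦ ⟨v, a restricted⟩`.

`kst` is the theorem of Koevari, Sos and Turan in a weak form: a relation on `Fin M × Fin M` of
density at least `1 / q` contains all of `X × Y` for some `X`, `Y` with `n` elements each.

`tw1`: every relation `red` on the vertices either misses all edges of some body, or it contains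
a `K_{n,n}` between two adjacent roles, all of whose edges are edges of `Gamma_M(R)`.
-/

set_option autoImplicit false

namespace MP3240Tw1

open Finset Classical

/-- Koevari, Sos, Turan. -/
theorem kst (q n M : ℕ) (hq : 0 < q) (hM : 8 * q * q * n + 4 * q * n * 2 ^ (4 * q * n) ≤ M)
    (red : Fin M → Fin M → Prop)
    (h : M * M ≤ q * ∑ x, (univ.filter (fun y => red x y)).card) :
    ∃ X Y : Finset (Fin M), X.card = n ∧ Y.card = n ∧ ∀ x ∈ X, ∀ y ∈ Y, red x y := by
  rcases Nat.eq_zero_or_pos n with rfl | hn
  · exact ⟨∅, ∅, rfl, rfl, by simp⟩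
  have hMpos : 0 < M := by
    have : 0 < 4 * q * n * 2 ^ (4 * q * n) := by positivity
    omega
  set d : Fin M → ℕ := fun x => (univ.filter (fun y => red x y)).card with hd
  have hdM : ∀ x, d x ≤ M := fun x => by
    have := card_le_univ (univ.filter (fun y => red x y))
    rwa [Fintype.card_fin] at this
  set good : Finset (Fin M) := univ.filter (fun x => M ≤ 2 * q * d x) with hgood
  -- many good vertices
  have h1 : 2 * q * ∑ x, d x ≤ 2 * q * good.card * M + M * M := by
    have e1 : ∀ x : Fin M, 2 * q * d x ≤ (if x ∈ good then 2 * q * M else 0) + M := by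
      intro x
      by_cases hx : x ∈ good
      · rw [if_pos hx]
        have := Nat.mul_le_mul_left (2 * q) (hdM x)
        omega
      · rw [if_neg hx]
        rw [hgood, mem_filter, not_and, not_le] at hx
        have := hx (mem_univ _)
        omega
    calc 2 * q * ∑ x, d x = ∑ x, 2 * q * d x := by rw [mul_sum]
      _ ≤ ∑ x : Fin M, ((if x ∈ good then 2 * q * M else 0) + M) := sum_le_sum fun x _ => e1 x
      _ = 2 * q * good.card * M + M * M := by
          rw [sum_add_distrib, sum_ite_mem, univ_inter, sum_const, sum_const, card_univ,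
            Fintype.card_fin, smul_eq_mul, smul_eq_mul]
          ring
  have h2 : M ≤ 2 * q * good.card := by
    have h3 : M * M ≤ 2 * q * good.card * M := by
      have : 2 * (M * M) ≤ 2 * q * ∑ x, d x := by
        rw [mul_assoc]
        exact Nat.mul_le_mul_left 2 h
      omega
    exact Nat.le_of_mul_le_mul_right h3 hMpos
  set T : ℕ := 4 * q * n with hT
  have h4 : T ≤ good.card := by
    have h5 : 2 * q * T ≤ 2 * q * good.card := by
      refine le_trans ?_ h2
      refine le_trans ?_ hM
      rw [hT]
      have : 2 * q * (4 * q * n) = 8 * q * q * n := by ring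
      omega
    exact Nat.le_of_mul_le_mul_left h5 (by positivity)
  obtain ⟨X', hX', hX'c⟩ := exists_subset_card_eq h4
  -- rich vertices on the other side
  set e : Fin M → ℕ := fun y => (X'.filter (fun x => red x y)).card with he
  have h6 : ∑ y, e y = ∑ x ∈ X', d x := by
    rw [he, hd]
    simp only [card_filter]
    rw [sum_comm]
  have h7 : T * M ≤ 2 * q * ∑ x ∈ X', d x := by
    rw [mul_sum, ← hX'c, ← smul_eq_mul, ← sum_const]
    refine sum_le_sum fun x hx => ?_
    exact (mem_filter.1 (hX' hx)).2
  set rich : Finset (Fin M) := univ.filter (fun y => n ≤ e y) with hrich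
  have heT : ∀ y, e y ≤ T := fun y => by
    rw [← hX'c]
    exact card_filter_le _ _
  have h8 : ∑ y, e y ≤ rich.card * T + M * n := by
    have e1 : ∀ y : Fin M, e y ≤ (if y ∈ rich then T else 0) + n := by
      intro y
      by_cases hy : y ∈ rich
      · rw [if_pos hy]
        have := heT y
        omega
      · rw [if_neg hy]
        rw [hrich, mem_filter, not_and, not_le] at hy
        have := hy (mem_univ _)
        omega
    calc ∑ y, e y ≤ ∑ y : Fin M, ((if y ∈ rich then T else 0) + n) :=
          sum_le_sum fun y _ => e1 y
      _ = rich.card * T + M * n := by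
          rw [sum_add_distrib, sum_ite_mem, univ_inter, sum_const, sum_const, card_univ,
            Fintype.card_fin, smul_eq_mul, smul_eq_mul]
  have h9 : M ≤ 4 * q * rich.card := by
    rw [← h6] at h7
    have h10 : T * M ≤ 2 * q * (rich.card * T + M * n) :=
      h7.trans (Nat.mul_le_mul_left _ h8)
    have h11 : n * (M * (4 * q)) ≤ n * (4 * q * rich.card * (2 * q) + M * (2 * q)) := by
      rw [hT] at h10
      calc n * (M * (4 * q)) = 4 * q * n * M := by ring
        _ ≤ 2 * q * (rich.card * (4 * q * n) + M * n) := h10
        _ = n * (4 * q * rich.card * (2 * q) + M * (2 * q)) := by ring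
    have h12 := Nat.le_of_mul_le_mul_left h11 hn
    have h13 : 2 * q * M ≤ 2 * q * (4 * q * rich.card) := by
      have : M * (4 * q) = 2 * q * M + M * (2 * q) := by ring
      have e2 : 4 * q * rich.card * (2 * q) = 2 * q * (4 * q * rich.card) := by ring
      omega
    exact Nat.le_of_mul_le_mul_left h13 (by positivity)
  have h14 : n * 2 ^ T ≤ rich.card := by
    have h15 : 4 * q * (n * 2 ^ T) ≤ 4 * q * rich.card := by
      refine le_trans ?_ h9
      refine le_trans ?_ hM
      rw [hT]
      have : 4 * q * (n * 2 ^ (4 * q * n)) = 4 * q * n * 2 ^ (4 * q * n) := by ring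
      omega
    exact Nat.le_of_mul_le_mul_left h15 (by positivity)
  -- choose n-subsets and use the pigeonhole principle
  have h16 : ∀ y ∈ rich, ∃ X ⊆ X'.filter (fun x => red x y), X.card = n := fun y hy =>
    exists_subset_card_eq (mem_filter.1 hy).2
  choose! g hg1 hg2 using h16
  have h17 : ∀ y ∈ rich, g y ∈ X'.powerset := fun y hy =>
    mem_powerset.2 ((hg1 y hy).trans (filter_subset _ _))
  have h18 : X'.powerset.card * n ≤ rich.card := by
    rw [card_powerset, hX'c, mul_comm]
    exact h14
  obtain ⟨X, hX, hXc⟩ := exists_le_card_fiber_of_mul_le_card_of_maps_to h17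
    ⟨∅, by simp⟩ h18
  obtain ⟨Y, hY, hYc⟩ := exists_subset_card_eq hXc
  have hne : Y.Nonempty := card_pos.1 (by omega)
  obtain ⟨y₀, hy₀⟩ := hne
  have hy₀' := mem_filter.1 (hY hy₀)
  refine ⟨X, Y, ?_, hYc, ?_⟩
  · rw [← hy₀'.2]
    exact hg2 y₀ hy₀'.1
  · intro x hx y hy
    have hy' := mem_filter.1 (hY hy)
    have := hg1 y hy'.1
    rw [hy'.2] at this
    exact (mem_filter.1 (this hx)).2

/-- A size of `M` that is large enough for `tw1`. -/
def twM (c n : ℕ) : ℕ :=
  8 * (c * c + 1) * (c * c + 1) * n + 4 * (c * c + 1) * n * 2 ^ (4 * (c * c + 1) * n) + 1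

section

variable {W : Type} [Fintype W] {M : ℕ}

/-- Averaging over one coordinate. -/
theorem sum_update (v : W) (f : (W → Fin M) → ℕ) :
    ∑ a : W → Fin M, ∑ t : Fin M, f (Function.update a v t) = M * ∑ a : W → Fin M, f a := by
  have h1 : ∑ a : W → Fin M, ∑ t : Fin M, f (Function.update a v t) =
      ∑ p : (W → Fin M) × Fin M, f (Function.update p.1 v p.2) := by
    rw [Fintype.sum_prod_type]
  have h2 : ∑ p : (W → Fin M) × Fin M, f (Function.update p.1 v p.2) =
      ∑ p : (W → Fin M) × Fin M, f p.1 := by
    refine Fintype.sum_equiv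
      { toFun := fun p => (Function.update p.1 v p.2, p.1 v)
        invFun := fun p => (Function.update p.1 v p.2, p.1 v)
        left_inv := fun p => ?_
        right_inv := fun p => ?_ } _ _ (fun p => rfl)
    · refine Prod.ext ?_ ?_
      · simp only [Function.update_idem, Function.update_eq_self]
      · simp only [Function.update_self]
    · refine Prod.ext ?_ ?_
      · simp only [Function.update_idem, Function.update_eq_self]
      · simp only [Function.update_self]
  rw [h1, h2, Fintype.sum_prod_type, mul_sum]
  refine sum_congr rfl fun a _ => ?_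
  simp only [sum_const, card_univ, Fintype.card_fin, smul_eq_mul]

/-- The arrow of the TW systems. -/
theorem tw1 (R : SimpleGraph W) (n : ℕ) (hM : twM (Fintype.card W) n ≤ M)
    (red : (Σ v : W, ({u : W // u ≠ v} → Fin M)) → (Σ v : W, ({u : W // u ≠ v} → Fin M)) → Prop) :
    (∃ a : W → Fin M, ∀ v w, R.Adj v w → ¬ red ⟨v, fun u => a u.1⟩ ⟨w, fun u => a u.1⟩) ∨
    (∃ v w, R.Adj v w ∧ ∃ (f : Fin n → ({u : W // u ≠ v} → Fin M))
      (g : Fin n → ({u : W // u ≠ w} → Fin M)), Function.Injective f ∧ Function.Injective g ∧
      (∀ i j u (hv : u ≠ v) (hw : u ≠ w), f i ⟨u, hv⟩ = g j ⟨u, hw⟩) ∧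
      ∀ i j, red ⟨v, f i⟩ ⟨w, g j⟩) := by
  by_contra hcon
  rw [not_or] at hcon
  obtain ⟨hno, hK⟩ := hcon
  push Not at hno
  set c := Fintype.card W with hc
  set q := c * c + 1 with hq
  have hqpos : 0 < q := by omega
  have hMpos : 0 < M := by
    unfold twM at hM
    omega
  -- the indicator of a red edge of type (v, w) in the body a
  set ind : W → W → (W → Fin M) → ℕ := fun v w a =>
    if R.Adj v w ∧ red ⟨v, fun u => a u.1⟩ ⟨w, fun u => a u.1⟩ then 1 else 0 with hind
  -- every body has a red edge
  have h1 : Fintype.card (W → Fin M) ≤ ∑ v, ∑ w, ∑ a, ind v w a := by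
    have e1 : ∀ a : W → Fin M, 1 ≤ ∑ v, ∑ w, ind v w a := by
      intro a
      obtain ⟨v, w, hvw, hr⟩ := hno a
      have e2 : ind v w a = 1 := by
        rw [hind]
        simp only
        rw [if_pos ⟨hvw, hr⟩]
      calc 1 = ind v w a := e2.symm
        _ ≤ ∑ w, ind v w a := single_le_sum (f := fun w => ind v w a) (fun _ _ => Nat.zero_le _)
            (mem_univ w)
        _ ≤ ∑ v, ∑ w, ind v w a := single_le_sum (f := fun v => ∑ w, ind v w a)
            (fun _ _ => Nat.zero_le _) (mem_univ v)
    calc Fintype.card (W → Fin M) = ∑ a : W → Fin M, 1 := by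
          rw [sum_const, card_univ, smul_eq_mul, mul_one]
      _ ≤ ∑ a : W → Fin M, ∑ v, ∑ w, ind v w a := sum_le_sum fun a _ => e1 a
      _ = ∑ v, ∑ w, ∑ a, ind v w a := by
          rw [sum_comm]
          refine sum_congr rfl fun v _ => ?_
          rw [sum_comm]
  -- few red edges of one type
  have h2 : ∀ v w, q * ∑ a, ind v w a ≤ Fintype.card (W → Fin M) := by
    intro v w
    by_cases hvw : R.Adj v w
    · have hne : v ≠ w := hvw.ne
      have e1 : ∀ a₀ : W → Fin M,
          q * ∑ t : Fin M, ∑ s : Fin M,
            ind v w (Function.update (Function.update a₀ v t) w s) ≤ M * M := by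
        intro a₀
        by_contra hlt
        push Not at hlt
        apply hK
        have e2 : ∀ s t : Fin M, ind v w (Function.update (Function.update a₀ v t) w s) =
            if red ⟨v, fun u => Function.update a₀ w s u.1⟩
              ⟨w, fun u => Function.update a₀ v t u.1⟩ then 1 else 0 := by
          intro s t
          rw [hind]
          simp only
          have e3 : (fun u : {u : W // u ≠ v} =>
              Function.update (Function.update a₀ v t) w s u.1) =
              fun u => Function.update a₀ w s u.1 := by
            funext u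
            by_cases hu : u.1 = w
            · rw [hu, Function.update_self, Function.update_self]
            · rw [Function.update_of_ne hu, Function.update_of_ne u.2,
                Function.update_of_ne hu]
          have e4 : (fun u : {u : W // u ≠ w} =>
              Function.update (Function.update a₀ v t) w s u.1) =
              fun u => Function.update a₀ v t u.1 := by
            funext u
            rw [Function.update_of_ne u.2]
          rw [e3, e4]
          by_cases hr : red ⟨v, fun u => Function.update a₀ w s u.1⟩
              ⟨w, fun u => Function.update a₀ v t u.1⟩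
          · rw [if_pos ⟨hvw, hr⟩, if_pos hr]
          · rw [if_neg (fun h => hr h.2), if_neg hr]
        obtain ⟨X, Y, hX, hY, hXY⟩ := kst q n M hqpos
          (by
            unfold twM at hM
            rw [hq]
            omega)
          (fun s t => red ⟨v, fun u => Function.update a₀ w s u.1⟩
              ⟨w, fun u => Function.update a₀ v t u.1⟩)
          (by
            refine le_of_lt (lt_of_lt_of_eq hlt ?_)
            congr 1
            rw [sum_comm]
            refine sum_congr rfl fun s _ => ?_
            rw [card_filter]
            exact sum_congr rfl fun t _ => e2 s t)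
        refine ⟨v, w, hvw, fun i u => Function.update a₀ w ((X.equivFin.symm (Fin.cast hX.symm i)).1) u.1,
          fun j u => Function.update a₀ v ((Y.equivFin.symm (Fin.cast hY.symm j)).1) u.1,
          ?_, ?_, ?_, ?_⟩
        · intro i j hij
          have := congrFun hij ⟨w, hne.symm⟩
          simp only [Function.update_self] at this
          have h5 := X.equivFin.symm.injective (Subtype.ext this)
          exact Fin.cast_injective _ h5
        · intro i j hij
          have := congrFun hij ⟨v, hne⟩
          simp only [Function.update_self] at this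
          have h5 := Y.equivFin.symm.injective (Subtype.ext this)
          exact Fin.cast_injective _ h5
        · intro i j u hv hw
          simp only
          rw [Function.update_of_ne hw, Function.update_of_ne hv]
        · intro i j
          exact hXY _ (X.equivFin.symm (Fin.cast hX.symm i)).2 _
            (Y.equivFin.symm (Fin.cast hY.symm j)).2
      have e5 : ∑ a₀ : W → Fin M, ∑ t : Fin M, ∑ s : Fin M,
          ind v w (Function.update (Function.update a₀ v t) w s) = M * (M * ∑ a, ind v w a) := by
        rw [sum_update v (fun b => ∑ s : Fin M, ind v w (Function.update b w s)),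
          sum_update w (ind v w)]
      have e6 : M * M * (q * ∑ a, ind v w a) ≤ M * M * Fintype.card (W → Fin M) := by
        calc M * M * (q * ∑ a, ind v w a) = q * (M * (M * ∑ a, ind v w a)) := by ring
          _ = ∑ a₀ : W → Fin M, q * ∑ t : Fin M, ∑ s : Fin M,
              ind v w (Function.update (Function.update a₀ v t) w s) := by
              rw [← e5, mul_sum]
          _ ≤ ∑ a₀ : W → Fin M, M * M := sum_le_sum fun a₀ _ => e1 a₀
          _ = M * M * Fintype.card (W → Fin M) := by
              rw [sum_const, card_univ, smul_eq_mul, mul_comm]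
      exact Nat.le_of_mul_le_mul_left e6 (by positivity)
    · have e1 : ∑ a, ind v w a = 0 := by
        refine sum_eq_zero fun a _ => ?_
        rw [hind]
        simp only
        rw [if_neg (fun h => hvw h.1)]
      rw [e1]
      simp
  have h3 : q * ∑ v, ∑ w, ∑ a, ind v w a ≤ c * c * Fintype.card (W → Fin M) := by
    rw [mul_sum]
    calc ∑ v, q * ∑ w, ∑ a, ind v w a ≤ ∑ v : W, c * Fintype.card (W → Fin M) := by
          refine sum_le_sum fun v _ => ?_
          rw [mul_sum]
          calc ∑ w, q * ∑ a, ind v w a ≤ ∑ w : W, Fintype.card (W → Fin M) :=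
                sum_le_sum fun w _ => h2 v w
            _ = c * Fintype.card (W → Fin M) := by rw [sum_const, card_univ, smul_eq_mul]
      _ = c * c * Fintype.card (W → Fin M) := by
          rw [sum_const, card_univ, smul_eq_mul, mul_assoc]
  have h4 : 0 < Fintype.card (W → Fin M) := by
    have : Nonempty (W → Fin M) := ⟨fun _ => ⟨0, hMpos⟩⟩
    exact Fintype.card_pos
  have h5 : q * Fintype.card (W → Fin M) ≤ c * c * Fintype.card (W → Fin M) :=
    (Nat.mul_le_mul_left q h1).trans h3
  have h6 := Nat.le_of_mul_le_mul_right h5 h4
  omega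

end

end MP3240Tw1
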