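import Mathlib

/-!
# MP_3240be_co, row TRE: dense graphs contain all forests

`dg G S v` is the number of neighbours of `v` in `S`.

* `exists_core`: average degree at least `2 D` gives a nonempty subset of minimum degree at
  least `D`;
* `forest_embed`: minimum degree at least `D` gives every forest with at most `D + 1` vertices.
-/

set_option autoImplicit false

namespace MP3240Tre

open Finset Classical

variable {V : Type*}

/-- The number of neighbours of `v` in `S`. -/
noncomputable def dg (G : SimpleGraph V) (S : Finset V) (v : V) : ℕ :=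
  (S.filter (fun w => G.Adj v w)).card

theorem dg_mono (G : SimpleGraph V) {S T : Finset V} (h : S ⊆ T) (v : V) :
    dg G S v ≤ dg G T v :=
  card_le_card (filter_subset_filter _ h)

theorem dg_erase (G : SimpleGraph V) (S : Finset V) {v : V} (hv : v ∈ S) (w : V) :
    dg G S w = dg G (S.erase v) w + if G.Adj w v then 1 else 0 := by
  unfold dg
  by_cases h : G.Adj w v
  · rw [if_pos h]
    have h1 : (S.filter (fun u => G.Adj w u)) =
        insert v ((S.erase v).filter (fun u => G.Adj w u)) := by
      ext u
      simp only [mem_filter, mem_insert, mem_erase]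
      constructor
      · rintro ⟨h2, h3⟩
        by_cases h4 : u = v
        · exact Or.inl h4
        · exact Or.inr ⟨⟨h4, h2⟩, h3⟩
      · rintro (rfl | ⟨⟨_, h2⟩, h3⟩)
        · exact ⟨hv, h⟩
        · exact ⟨h2, h3⟩
    rw [h1, card_insert_of_notMem (by simp)]
  · rw [if_neg h, Nat.add_zero]
    apply congrArg
    ext u
    simp only [mem_filter, mem_erase]
    constructor
    · rintro ⟨h2, h3⟩
      refine ⟨⟨?_, h2⟩, h3⟩
      rintro rfl
      exact h h3
    · rintro ⟨⟨_, h2⟩, h3⟩
      exact ⟨h2, h3⟩

theorem sum_dg_erase (G : SimpleGraph V) (S : Finset V) {v : V} (hv : v ∈ S) :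
    ∑ w ∈ S, dg G S w = ∑ w ∈ S.erase v, dg G (S.erase v) w + 2 * dg G S v := by
  rw [← add_sum_erase _ _ hv]
  have h1 : ∑ w ∈ S.erase v, dg G S w =
      ∑ w ∈ S.erase v, dg G (S.erase v) w + ∑ w ∈ S.erase v, (if G.Adj w v then 1 else 0) := by
    rw [← sum_add_distrib]
    exact sum_congr rfl fun w _ => dg_erase G S hv w
  have h2 : ∑ w ∈ S.erase v, (if G.Adj w v then 1 else 0) = dg G S v := by
    rw [← card_filter]
    unfold dg
    apply congrArg
    ext u
    simp only [mem_filter, mem_erase]
    constructor
    · rintro ⟨⟨_, h2⟩, h3⟩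
      exact ⟨h2, h3.symm⟩
    · rintro ⟨h2, h3⟩
      exact ⟨⟨h3.ne', h2⟩, h3.symm⟩
  rw [h1, h2]
  omega

/-- A graph of average degree at least `2 D` contains a nonempty set of vertices of minimum
degree at least `D`. -/
theorem exists_core (G : SimpleGraph V) (D : ℕ) (S : Finset V) (hS : S.Nonempty)
    (h : 2 * D * S.card ≤ ∑ v ∈ S, dg G S v) :
    ∃ T ⊆ S, T.Nonempty ∧ ∀ v ∈ T, D ≤ dg G T v := by
  induction hn : S.card using Nat.strong_induction_on generalizing S with
  | _ n ih =>
    by_cases hall : ∀ v ∈ S, D ≤ dg G S v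
    · exact ⟨S, Subset.refl _, hS, hall⟩
    · push Not at hall
      obtain ⟨v, hv, hlt⟩ := hall
      have hc : (S.erase v).card = S.card - 1 := card_erase_of_mem hv
      have hpos : 0 < S.card := card_pos.2 hS
      have hsum := sum_dg_erase G S hv
      have hmul : 2 * D * S.card = 2 * D * (S.card - 1) + 2 * D := by
        obtain ⟨m, hm⟩ : ∃ m, S.card = m + 1 := ⟨S.card - 1, by omega⟩
        rw [hm, Nat.add_sub_cancel]
        ring
      have hne : (S.erase v).Nonempty := by
        rw [← card_pos, hc]
        by_contra h0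
        have h1 : S.card = 1 := by omega
        obtain ⟨u, hu⟩ := card_eq_one.1 h1
        have hvu : v = u := by rw [hu] at hv; exact mem_singleton.1 hv
        have h2 : dg G S v = 0 := by
          unfold dg
          rw [card_eq_zero, filter_eq_empty_iff]
          intro w hw
          rw [hu] at hw
          have : w = v := by rw [mem_singleton.1 hw, hvu]
          rw [this]
          exact G.irrefl
        have h3 : ∑ w ∈ S.erase v, dg G (S.erase v) w = 0 := by
          have : S.erase v = ∅ := by rw [← card_eq_zero, hc, h1]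
          rw [this]
          simp
        rw [hsum, h3, h2, h1] at h
        omega
      obtain ⟨T, hT, hTn, hTd⟩ := ih (S.erase v).card (by omega) (S.erase v) hne
        (by rw [hc]; omega) rfl
      exact ⟨T, hT.trans (erase_subset _ _), hTn, hTd⟩

/-- An acyclic graph on a nonempty finite type has a vertex with at most one neighbour. -/
theorem exists_leaf {W : Type*} [Finite W] [Nonempty W] (F : SimpleGraph W) (hF : F.IsAcyclic) :
    ∃ w, ∀ u u', F.Adj w u → F.Adj w u' → u = u' := by
  have := Fintype.ofFinite W
  by_contra hcon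
  push Not at hcon
  obtain ⟨w₀⟩ := ‹Nonempty W›
  have htree := hF.isTree_connectedComponent (F.connectedComponentMk w₀)
  obtain ⟨u, u', hu, hu', _⟩ := hcon w₀
  have : Nontrivial (F.connectedComponentMk w₀) := by
    refine ⟨⟨w₀, ?_⟩, ⟨u, ?_⟩, ?_⟩
    · rfl
    · exact (SimpleGraph.ConnectedComponent.sound hu.symm.reachable)
    · intro h
      exact hu.ne (congrArg Subtype.val h)
  obtain ⟨v, hv⟩ := htree.exists_vert_degree_one_of_nontrivial
  obtain ⟨a, b, ha, hb, hab⟩ := hcon v.1
  have hmem : ∀ x, F.Adj v.1 x → x ∈ F.connectedComponentMk w₀ := by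
    intro x hx
    have h0 : F.connectedComponentMk v.1 = F.connectedComponentMk w₀ := v.2
    have h1 : F.connectedComponentMk x = F.connectedComponentMk w₀ := by
      rw [← h0]
      exact SimpleGraph.ConnectedComponent.sound hx.symm.reachable
    exact h1
  rw [SimpleGraph.degree, card_eq_one] at hv
  obtain ⟨c, hc⟩ := hv
  have h1 : (⟨a, hmem a ha⟩ : (F.connectedComponentMk w₀)) = c := by
    rw [← mem_singleton, ← hc, SimpleGraph.mem_neighborFinset]
    exact ha
  have h2 : (⟨b, hmem b hb⟩ : (F.connectedComponentMk w₀)) = c := by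
    rw [← mem_singleton, ← hc, SimpleGraph.mem_neighborFinset]
    exact hb
  exact hab (congrArg Subtype.val (h1.trans h2.symm))

/-- Minimum degree at least `D` in `S` gives every forest with at most `D + 1` vertices. -/
theorem forest_embed (G : SimpleGraph V) (D : ℕ) (S : Finset V) (hS : S.Nonempty)
    (hdeg : ∀ v ∈ S, D ≤ dg G S v) (a : ℕ) :
    ∀ (W : Type) [Fintype W] (F : SimpleGraph W), F.IsAcyclic → Fintype.card W = a →
      a ≤ D + 1 → ∃ f : W → V, Function.Injective f ∧ (∀ i, f i ∈ S) ∧
        ∀ i j, F.Adj i j → G.Adj (f i) (f j) := by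
  induction a with
  | zero =>
    intro W _ F _ hc _
    have := Fintype.card_eq_zero_iff.1 hc
    exact ⟨fun i => isEmptyElim i, fun i => isEmptyElim i, fun i => isEmptyElim i,
      fun i => isEmptyElim i⟩
  | succ a ih =>
    intro W _ F hF hc ha
    have : Nonempty W := Fintype.card_pos_iff.1 (by omega)
    obtain ⟨w, hw⟩ := exists_leaf F hF
    have hc' : Fintype.card {x : W // x ≠ w} = a := by
      rw [Fintype.card_subtype_compl, hc]
      simp
    obtain ⟨f, hfi, hfS, hfa⟩ := ih {x : W // x ≠ w} (F.comap (fun x => x.1))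
      (hF.comap ⟨fun x => x.1, fun h => h⟩ Subtype.val_injective) hc' (by omega)
    -- it is enough to find a new vertex
    have key : ∃ s ∈ S, (∀ x, f x ≠ s) ∧ ∀ x : {x : W // x ≠ w}, F.Adj w x.1 → G.Adj s (f x) := by
      by_cases hn : ∃ u, F.Adj w u
      · obtain ⟨u, hu⟩ := hn
        have huw : u ≠ w := hu.ne'
        have h1 := hdeg (f ⟨u, huw⟩) (hfS _)
        have h2 : ((univ : Finset {x : W // x ≠ w}).erase ⟨u, huw⟩).card < D + 0 ∨
            ((univ : Finset {x : W // x ≠ w}).erase ⟨u, huw⟩).card < D := by
          right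
          rw [card_erase_of_mem (mem_univ _), card_univ, hc']
          have : 0 < a := by
            rw [← hc']
            exact Fintype.card_pos_iff.2 ⟨⟨u, huw⟩⟩
          omega
        have h3 : ((univ.erase (⟨u, huw⟩ : {x : W // x ≠ w})).image f).card <
            (S.filter (fun s => G.Adj (f ⟨u, huw⟩) s)).card := by
          refine lt_of_le_of_lt card_image_le (lt_of_lt_of_le ?_ h1)
          rcases h2 with h2 | h2
          · exact h2
          · exact h2
        obtain ⟨s, hs, hs'⟩ := exists_mem_notMem_of_card_lt_card h3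
        rw [mem_filter] at hs
        refine ⟨s, hs.1, ?_, ?_⟩
        · intro x hx
          by_cases hxu : x = ⟨u, huw⟩
          · rw [hxu] at hx
            exact hs.2.ne hx
          · exact hs' (mem_image.2 ⟨x, mem_erase.2 ⟨hxu, mem_univ _⟩, hx⟩)
        · intro x hx
          have : x = ⟨u, huw⟩ := Subtype.ext (hw _ _ hx hu)
          rw [this]
          exact hs.2.symm
      · push Not at hn
        obtain ⟨v, hv⟩ := hS
        have h1 := hdeg v hv
        have h2 : D + 1 ≤ S.card := by
          have h3 : insert v (S.filter (fun s => G.Adj v s)) ⊆ S := by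
            intro x hx
            rcases mem_insert.1 hx with rfl | hx
            · exact hv
            · exact (mem_filter.1 hx).1
          have h4 := card_le_card h3
          rw [card_insert_of_notMem (by simp)] at h4
          unfold dg at h1
          omega
        have h3 : ((univ : Finset {x : W // x ≠ w}).image f).card < S.card := by
          refine lt_of_le_of_lt card_image_le ?_
          rw [card_univ, hc']
          omega
        obtain ⟨s, hs, hs'⟩ := exists_mem_notMem_of_card_lt_card h3
        refine ⟨s, hs, fun x hx => hs' (mem_image.2 ⟨x, mem_univ _, hx⟩), fun x hx => ?_⟩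
        exact absurd hx (hn _)
    obtain ⟨s, hsS, hsf, hsa⟩ := key
    refine ⟨fun x => if h : x = w then s else f ⟨x, h⟩, ?_, ?_, ?_⟩
    · intro x y hxy
      by_cases hx : x = w <;> by_cases hy : y = w
      · rw [hx, hy]
      · simp only [hx, hy, dif_pos, dif_neg, not_false_eq_true] at hxy
        exact absurd hxy.symm (hsf _)
      · simp only [hx, hy, dif_pos, dif_neg, not_false_eq_true] at hxy
        exact absurd hxy (hsf _)
      · simp only [hx, hy, dif_neg, not_false_eq_true] at hxy
        exact congrArg Subtype.val (hfi hxy)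
    · intro x
      by_cases hx : x = w
      · simp only [hx, dif_pos]
        exact hsS
      · simp only [hx, dif_neg, not_false_eq_true]
        exact hfS _
    · intro x y hxy
      by_cases hx : x = w <;> by_cases hy : y = w
      · rw [hx, hy] at hxy
        exact absurd hxy F.irrefl
      · simp only [hx, hy, dif_pos, dif_neg, not_false_eq_true]
        rw [hx] at hxy
        exact hsa ⟨y, hy⟩ hxy
      · simp only [hx, hy, dif_pos, dif_neg, not_false_eq_true]
        rw [hy] at hxy
        exact (hsa ⟨x, hx⟩ hxy.symm).symm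
      · simp only [hx, hy, dif_neg, not_false_eq_true]
        exact hfa _ _ hxy

/-- Average degree at least `2 D` on `S` gives every forest with at most `D + 1` vertices
inside `S`. -/
theorem forest_of_average (G : SimpleGraph V) (D : ℕ) (S : Finset V) (hS : S.Nonempty)
    (h : 2 * D * S.card ≤ ∑ v ∈ S, dg G S v) (W : Type) [Fintype W] (F : SimpleGraph W)
    (hF : F.IsAcyclic) (hW : Fintype.card W ≤ D + 1) :
    ∃ f : W → V, Function.Injective f ∧ (∀ i, f i ∈ S) ∧
      ∀ i j, F.Adj i j → G.Adj (f i) (f j) := by
  obtain ⟨T, hT, hTn, hTd⟩ := exists_core G D S hS h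
  obtain ⟨f, h1, h2, h3⟩ := forest_embed G D T hTn hTd (Fintype.card W) W F hF rfl hW
  exact ⟨f, h1, fun i => hT (h2 i), h3⟩

end MP3240Tre
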